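import Mathlib
import Pool.Agent.H23.SE

set_option autoImplicit false

namespace Pool.Agent.Results.MP_f36693_lc.MissingDegree

open Pool.Agent.H23 Pool.Agent.H23.RE Pool.Agent.H23.TNF Pool.Agent.H23.Rel
open Classical
open Nat.Partrec (Code)

/-- The iterated jumps of the empty set. -/
def J : ℕ → Set ℕ
  | 0 => ∅
  | n + 1 => jump (J n)

/-- The set `0^(ω)`. -/
def Zw : Set ℕ := {n | n.unpair.2 ∈ J n.unpair.1}

/-- Lists of terms: each entry is a variable or a function symbol applied to a list of terms. -/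
inductive Tms : Type
  | nil : Tms
  | var : ℕ → Tms → Tms
  | app : ℕ → Tms → Tms → Tms

/-- Formulas, with de Bruijn variables. -/
inductive Fm : Type
  | rel : ℕ → Tms → Fm
  | eq : Tms → Tms → Fm
  | neg : Fm → Fm
  | and : Fm → Fm → Fm
  | ex : Fm → Fm

def Tms.enc : Tms → ℕ
  | .nil => 0
  | .var i r => 9 * Nat.pair i r.enc + 1
  | .app f a r => 9 * Nat.pair f (Nat.pair a.enc r.enc) + 2

/-- Goedel numbers. -/
def Fm.enc : Fm → ℕ
  | .rel k a => 9 * Nat.pair k a.enc + 3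
  | .eq a b => 9 * Nat.pair a.enc b.enc + 4
  | .neg φ => 9 * φ.enc + 5
  | .and φ ψ => 9 * Nat.pair φ.enc ψ.enc + 6
  | .ex φ => 9 * φ.enc + 7

def Tms.ev (F : ℕ → List ℕ → ℕ) (v : List ℕ) : Tms → List ℕ
  | .nil => []
  | .var i r => v.getD i 0 :: r.ev F v
  | .app f a r => F f (a.ev F v) :: r.ev F v

/-- Satisfaction in the structure with universe `U`, functions `F` and relations `R`. -/
def Fm.Sat (U : Set ℕ) (F : ℕ → List ℕ → ℕ) (R : ℕ → List ℕ → Prop) : Fm → List ℕ → Prop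
  | .rel k a, v => R k (a.ev F v)
  | .eq a b, v => a.ev F v = b.ev F v
  | .neg φ, v => ¬ φ.Sat U F R v
  | .and φ ψ, v => φ.Sat U F R v ∧ ψ.Sat U F R v
  | .ex φ, v => ∃ a ∈ U, φ.Sat U F R (a :: v)

def pos (e c : ℕ) (v l : List ℕ) : ℕ := Nat.pair e (Encodable.encode (e, c, v, l))

def Rule (U : Set ℕ) (F : ℕ → List ℕ → ℕ) (R : ℕ → List ℕ → Prop) (S : ℕ → Prop)
    (d : ℕ × ℕ × List ℕ × List ℕ) (P N : List ℕ) : Prop :=
  ∃ w : ℕ × List ℕ × List ℕ,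
  ((d.2.1 % 9 == 0 && d.2.2.2 == [] && P == [] && N == []) = true) ∨
  ((d.2.1 % 9 == 1 && d.2.2.2 == d.2.2.1.getD (d.2.1 / 9).unpair.1 0 :: w.2.1 &&
    P == [pos d.1 (d.2.1 / 9).unpair.2 d.2.2.1 w.2.1] && N == []) = true) ∨
  ((d.2.1 % 9 == 2 && d.2.2.2 == w.1 :: w.2.2 &&
    P == [pos d.1 (d.2.1 / 9).unpair.2.unpair.1 d.2.2.1 w.2.1,
      pos d.1 (d.2.1 / 9).unpair.2.unpair.2 d.2.2.1 w.2.2] && N == []) = true ∧
    F (d.2.1 / 9).unpair.1 w.2.1 = w.1) ∨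
  ((d.2.1 % 9 == 3 && P == [pos d.1 (d.2.1 / 9).unpair.2 d.2.2.1 w.2.1] && N == []) = true ∧
    R (d.2.1 / 9).unpair.1 w.2.1) ∨
  ((d.2.1 % 9 == 4 && P == [pos d.1 (d.2.1 / 9).unpair.1 d.2.2.1 w.2.1,
    pos d.1 (d.2.1 / 9).unpair.2 d.2.2.1 w.2.1] && N == []) = true) ∨
  ((d.2.1 % 9 == 5 && P == [] && N == [pos d.1 (d.2.1 / 9) d.2.2.1 []]) = true) ∨
  ((d.2.1 % 9 == 6 && P == [pos d.1 (d.2.1 / 9).unpair.1 d.2.2.1 [],
    pos d.1 (d.2.1 / 9).unpair.2 d.2.2.1 []] && N == []) = true) ∨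
  ((d.2.1 % 9 == 7 && P == [pos d.1 (d.2.1 / 9) (w.1 :: d.2.2.1) []] && N == []) = true ∧
    w.1 ∈ U) ∨
  ((d.2.1 % 9 == 8 && P == [pos d.1 (d.2.1 / 9) [] []] && N == []) = true ∧ S (d.2.1 / 9))

theorem truth {U : Set ℕ} {F : ℕ → List ℕ → ℕ} {R : ℕ → List ℕ → Prop} {S : Set Fm}
    (hU : REPred (· ∈ U)) (hF : REPred fun p : ℕ × List ℕ × ℕ => F p.1 p.2.1 = p.2.2)
    (hR : REPred fun p : ℕ × List ℕ => R p.1 p.2) (hS : REPred (· ∈ Fm.enc '' S)) :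
    ∃ e, ∀ n, pos e (9 * n + 8) [] [] ∈ J (n + 2) ↔ n ∈ Fm.enc '' {φ ∈ S | φ.Sat U F R []} := by
  obtain ⟨e, he⟩ := exists_rule (R := fun x P N => Rule U F R (· ∈ Fm.enc '' S)
    (Denumerable.ofNat _ x) P N) (re_comp' (p := fun y : (ℕ × ℕ × List ℕ × List ℕ) ×
      List ℕ × List ℕ => Rule U F R (· ∈ Fm.enc '' S) y.1 y.2.1 y.2.2) (by
    unfold Rule pos
    refine re_ex (re_or (re_prim (by fun_prop)) (re_or (re_prim (by fun_prop)) (re_or
      (re_and (re_prim (by fun_prop)) ?_) (re_or (re_and (re_prim (by fun_prop)) ?_)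
      (re_or (re_prim (by fun_prop)) (re_or (re_prim (by fun_prop)) (re_or (re_prim (by fun_prop))
      (re_or (re_and (re_prim (by fun_prop)) (re_comp' hU _ (by fun_prop)))
      (re_and (re_prim (by fun_prop)) (re_comp' hS _ (by fun_prop)))))))))))
    · exact re_comp' hF (fun x : ((ℕ × ℕ × List ℕ × List ℕ) × List ℕ × List ℕ) ×
        ℕ × List ℕ × List ℕ => ((x.1.1.2.1 / 9).unpair.1, x.2.2.1, x.2.1)) (by fun_prop)
    · exact re_comp' hR (fun x : ((ℕ × ℕ × List ℕ × List ℕ) × List ℕ × List ℕ) ×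
        ℕ × List ℕ × List ℕ => ((x.1.1.2.1 / 9).unpair.1, x.2.2.1)) (by fun_prop))
    (fun x : ℕ × List ℕ × List ℕ => (Denumerable.ofNat _ x.1, x.2)) (by fun_prop))
  have h : ∀ m t p v l, t < 9 → (pos e (9 * p + t) v l ∈ J (m + 1) ↔ ∃ P N,
      Rule U F R (· ∈ Fm.enc '' S) (e, 9 * p + t, v, l) P N ∧ (∀ p ∈ P, p ∈ J m) ∧
        ∀ p ∈ N, p ∉ J m) := fun m t p v l _ => by
    rw [pos, J, he, Denumerable.ofNat_encode]
  have d : ∀ p t, t < 9 → (9 * p + t) / 9 = p ∧ (9 * p + t) % 9 = t := fun p t h => by omega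
  have l1 := Nat.left_le_pair
  have l2 := Nat.right_le_pair
  have hT : ∀ (a : Tms) m v l, a.enc ≤ m → (pos e a.enc v l ∈ J (m + 1) ↔ a.ev F v = l) := by
    intro a
    induction a with
    | nil =>
      intro m v l _
      rw [show Tms.nil.enc = 9 * 0 + 0 from rfl, h _ _ _ _ _ (by omega), Tms.ev, eq_comm]
      simp [Rule]
    | var i r ih =>
      intro m v l hm
      rw [Tms.enc] at hm ⊢
      obtain ⟨m, rfl⟩ : ∃ k, m = k + 1 := ⟨m - 1, by omega⟩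
      have := fun l => ih m v l (by have := l2 i r.enc; omega)
      rw [h _ _ _ _ _ (by omega), Tms.ev]
      simp only [Rule, d _ _ (show 1 < 9 by omega), Bool.and_eq_true, beq_iff_eq, Nat.unpair_pair]
      simp only [Nat.reduceEqDiff, false_and, false_or, or_false, true_and]
      constructor
      · rintro ⟨_, _, ⟨w, ⟨rfl, rfl⟩, rfl⟩, h1, -⟩
        rw [(this w.2.1).1 (h1 _ (by simp))]
      · rintro rfl
        exact ⟨_, _, ⟨(0, _, []), ⟨rfl, rfl⟩, rfl⟩, by simp [this], by simp⟩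
    | app f a r iha ihr =>
      intro m v l hm
      rw [Tms.enc] at hm ⊢
      obtain ⟨m, rfl⟩ : ∃ k, m = k + 1 := ⟨m - 1, by omega⟩
      have b := l2 f (Nat.pair a.enc r.enc)
      have t1 := fun l => iha m v l (by have := l1 a.enc r.enc; omega)
      have t2 := fun l => ihr m v l (by have := l2 a.enc r.enc; omega)
      rw [h _ _ _ _ _ (by omega), Tms.ev]
      simp only [Rule, d _ _ (show 2 < 9 by omega), Bool.and_eq_true, beq_iff_eq, Nat.unpair_pair]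
      simp only [Nat.reduceEqDiff, false_and, false_or, or_false, true_and]
      constructor
      · rintro ⟨_, _, ⟨w, ⟨⟨rfl, rfl⟩, rfl⟩, h2⟩, h1, -⟩
        rw [(t1 w.2.1).1 (h1 _ (by simp)), (t2 w.2.2).1 (h1 _ (by simp)), h2]
      · rintro rfl
        exact ⟨_, _, ⟨(_, _, _), ⟨⟨rfl, rfl⟩, rfl⟩, rfl⟩, by simp [t1, t2], by simp⟩
  have hF : ∀ (φ : Fm) m v, φ.enc ≤ m → (pos e φ.enc v [] ∈ J (m + 1) ↔ φ.Sat U F R v) := by
    intro φ
    induction φ with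
    | rel k a =>
      intro m v hm
      rw [Fm.enc] at hm ⊢
      obtain ⟨m, rfl⟩ : ∃ k, m = k + 1 := ⟨m - 1, by omega⟩
      have := fun l => hT a m v l (by have := l2 k a.enc; omega)
      rw [h _ _ _ _ _ (by omega), Fm.Sat]
      simp only [Rule, d _ _ (show 3 < 9 by omega), Bool.and_eq_true, beq_iff_eq, Nat.unpair_pair]
      simp only [Nat.reduceEqDiff, false_and, false_or, or_false, true_and]
      constructor
      · rintro ⟨_, _, ⟨w, ⟨rfl, rfl⟩, h2⟩, h1, -⟩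
        rwa [(this w.2.1).1 (h1 _ (by simp))]
      · exact fun h2 => ⟨_, _, ⟨(0, _, []), ⟨rfl, rfl⟩, h2⟩, by simp [this], by simp⟩
    | eq a b =>
      intro m v hm
      rw [Fm.enc] at hm ⊢
      obtain ⟨m, rfl⟩ : ∃ k, m = k + 1 := ⟨m - 1, by omega⟩
      have t1 := fun l => hT a m v l (by have := l1 a.enc b.enc; omega)
      have t2 := fun l => hT b m v l (by have := l2 a.enc b.enc; omega)
      rw [h _ _ _ _ _ (by omega), Fm.Sat]
      simp only [Rule, d _ _ (show 4 < 9 by omega), Bool.and_eq_true, beq_iff_eq, Nat.unpair_pair]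
      simp only [Nat.reduceEqDiff, false_and, false_or, or_false, true_and]
      constructor
      · rintro ⟨_, _, ⟨w, rfl, rfl⟩, h1, -⟩
        rw [(t1 w.2.1).1 (h1 _ (by simp)), (t2 w.2.1).1 (h1 _ (by simp))]
      · exact fun h2 => ⟨_, _, ⟨(0, b.ev F v, []), rfl, rfl⟩, by simp [t1, t2, h2], by simp⟩
    | neg φ ih =>
      intro m v hm
      rw [Fm.enc] at hm ⊢
      obtain ⟨m, rfl⟩ : ∃ k, m = k + 1 := ⟨m - 1, by omega⟩
      rw [h _ _ _ _ _ (by omega), Fm.Sat, ← ih m v (by omega)]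
      simp [Rule, d _ _ (show 5 < 9 by omega)]
    | and φ ψ i j =>
      intro m v hm
      rw [Fm.enc] at hm ⊢
      obtain ⟨m, rfl⟩ : ∃ k, m = k + 1 := ⟨m - 1, by omega⟩
      rw [h _ _ _ _ _ (by omega), Fm.Sat, ← i m v (by have := l1 φ.enc ψ.enc; omega),
        ← j m v (by have := l2 φ.enc ψ.enc; omega)]
      simp [Rule, d _ _ (show 6 < 9 by omega)]
    | ex φ ih =>
      intro m v hm
      rw [Fm.enc] at hm ⊢
      obtain ⟨m, rfl⟩ : ∃ k, m = k + 1 := ⟨m - 1, by omega⟩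
      have := fun a => ih m (a :: v) (by omega)
      rw [h _ _ _ _ _ (by omega), Fm.Sat]
      simp only [Rule, d _ _ (show 7 < 9 by omega), Bool.and_eq_true, beq_iff_eq]
      simp only [Nat.reduceEqDiff, false_and, false_or, or_false, true_and]
      constructor
      · rintro ⟨_, _, ⟨w, ⟨rfl, rfl⟩, h2⟩, h1, -⟩
        exact ⟨_, h2, (this w.1).1 (h1 _ (by simp))⟩
      · exact fun ⟨a, h1, h2⟩ => ⟨_, _, ⟨(a, [], []), ⟨rfl, rfl⟩, h1⟩, by simp [this, h2], by simp⟩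
  refine ⟨e, fun n => ?_⟩
  rw [h _ _ _ _ _ (by omega)]
  simp only [Rule, d _ _ (show 8 < 9 by omega), Bool.and_eq_true, beq_iff_eq]
  simp only [Nat.reduceEqDiff, false_and, false_or, true_and]
  constructor
  · rintro ⟨_, _, ⟨w, ⟨rfl, rfl⟩, φ, h2, rfl⟩, h1, -⟩
    exact ⟨φ, ⟨h2, (hF φ _ _ le_rfl).1 (h1 _ (by simp))⟩, rfl⟩
  · rintro ⟨φ, ⟨h1, h2⟩, rfl⟩
    exact ⟨_, _, ⟨(0, [], []), ⟨rfl, rfl⟩, φ, h1, rfl⟩, by simp [hF φ _ _ le_rfl, h2], by simp⟩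

theorem se_not {α : Type} [Primcodable α] {p : α → Prop} (h : REPred p) :
    SE (chi Zw) fun a => ¬ p a := by
  obtain ⟨e, he⟩ := exists_jump (W := fun x _ => ∃ a, (x == Encodable.encode a) = true ∧ p a)
    (re_ex (re_and (re_prim (by fun_prop)) (re_comp' h _ (by fun_prop))))
  refine (se_val (f := fun a => Nat.pair 1 (Nat.pair e (Encodable.encode a))) (h := fun _ => 0)
    (by fun_prop) (by fun_prop)).of_eq fun a => ?_
  simp [chi, Zw, J, he]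

def A (e : ℕ) (a : ℕ × ℕ × List ℕ) : Prop :=
  ((Denumerable.ofNat Code e).eval (Encodable.encode a)).Dom

def Spl (a : ℕ × List ℕ) (w : ℕ × (ℕ × List ℕ) × ℕ × List ℕ) : Prop :=
  (!(w.2.1.1 == w.2.2.1) && (w.2.1.2 ++ w.2.2.2).all fun b => Nat.ble b 1) = true ∧
    A a.1 (w.1, w.2.1.1, a.2 ++ w.2.1.2) ∧ A a.1 (w.1, w.2.2.1, a.2 ++ w.2.2.2)

theorem avoid (h : ℕ → ℕ → ℕ) (hh : Primrec fun p : ℕ × ℕ => h p.1 p.2) :
    ∃ D : Set ℕ, TuringReducible (chi D : ℕ →. ℕ) (chi Zw : ℕ →. ℕ) ∧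
      ∀ i, ¬ TuringEquivalent (chi D : ℕ →. ℕ) (fun x => chi Zw (h i x) : ℕ → ℕ) := by
  have rA : REPred fun x : ℕ × ℕ × ℕ × List ℕ => A x.1 x.2 := re_univ
  obtain ⟨dw, d1, d2⟩ : ∃ dw : ℕ → ℕ × (ℕ × List ℕ) × ℕ × List ℕ, Primrec dw ∧
      Function.Surjective dw := ⟨_, Primrec.ofNat _, (Denumerable.eqv _).symm.surjective⟩
  have rS : REPred fun x : (ℕ × List ℕ) × ℕ => Spl x.1 (dw x.2) :=
    re_comp' (p := fun x : (ℕ × List ℕ) × ℕ × (ℕ × List ℕ) × ℕ × List ℕ => Spl x.1 x.2)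
      (re_and (re_prim (by fun_prop)) (re_and
        (re_comp' rA (fun x : (ℕ × List ℕ) × ℕ × (ℕ × List ℕ) × ℕ × List ℕ =>
          (x.1.1, x.2.1, x.2.2.1.1, x.1.2 ++ x.2.2.1.2)) (by fun_prop))
        (re_comp' rA (fun x : (ℕ × List ℕ) × ℕ × (ℕ × List ℕ) × ℕ × List ℕ =>
          (x.1.1, x.2.1, x.2.2.2.1, x.1.2 ++ x.2.2.2.2)) (by fun_prop))))
      (fun x : (ℕ × List ℕ) × ℕ => (x.1, dw x.2)) (by fun_prop)
  obtain ⟨q, q1, q2, q3, q4⟩ := uniformize (p := fun a u => Spl a (dw u)) rS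
  let S1 : ℕ → List ℕ → List ℕ → Prop := fun s σ ρ =>
    ((¬ ∃ u, q (s.unpair.2, σ) u) ∧ (ρ == []) = true) ∨
    ∃ u, q (s.unpair.2, σ) u ∧
      ((chi Zw (h s.unpair.1 (dw u).1) ≠ (dw u).2.1.1 ∧ (ρ == (dw u).2.1.2) = true) ∨
       (chi Zw (h s.unpair.1 (dw u).1) = (dw u).2.1.1 ∧ (ρ == (dw u).2.2.2) = true))
  let S2 : ℕ → ℕ → ℕ → Prop := fun s n b =>
    (A s.unpair.2 (n, 0, []) ∧ (b == 1) = true) ∨ (¬ A s.unpair.2 (n, 0, []) ∧ (b == 0) = true)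
  have u1 : ∀ s σ, ∃! ρ, S1 s σ ρ := fun s σ => by
    simp only [S1, beq_iff_eq]
    by_cases a : ∃ u, q (s.unpair.2, σ) u
    · obtain ⟨u, a⟩ := id a
      refine ⟨if chi Zw (h s.unpair.1 (dw u).1) = (dw u).2.1.1 then (dw u).2.2.2 else (dw u).2.1.2,
        Or.inr ⟨u, a, by split_ifs with b <;> simp [b]⟩, ?_⟩
      rintro ρ (⟨b, -⟩ | ⟨w', b, c⟩)
      · exact absurd ⟨_, a⟩ b
      · obtain rfl := q3 _ _ _ a b
        rcases c with ⟨c, rfl⟩ | ⟨c, rfl⟩ <;> simp [c]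
    · exact ⟨[], Or.inl ⟨a, rfl⟩, fun ρ b => b.elim (·.2) fun ⟨_, b, _⟩ => absurd ⟨_, b⟩ a⟩
  have u2 : ∀ s n, ∃! b, S2 s n b := fun s n => by
    by_cases a : A s.unpair.2 (n, 0, []) <;> simp [S2, a]
  have h' : Primrec fun x : (ℕ × List ℕ × List ℕ) × ℕ => h x.1.1.unpair.1 (dw x.2).1 :=
    Primrec₂.comp (f := h) hh (by fun_prop) (by fun_prop)
  have q' : REPred fun x : (ℕ × List ℕ × List ℕ) × ℕ => q (x.1.1.unpair.2, x.1.2.1) x.2 :=
    re_comp' q1 (fun x : (ℕ × List ℕ × List ℕ) × ℕ => ((x.1.1.unpair.2, x.1.2.1), x.2))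
      (by fun_prop)
  have e1 : SE (chi Zw) fun x : ℕ × List ℕ × List ℕ => S1 x.1 x.2.1 x.2.2 :=
    se_or (se_and (se_not (re_ex q')) (se_prim (by fun_prop)))
      (se_ex (se_and (se_re q') (se_or (se_and (se_ne h' (by fun_prop)) (se_prim (by fun_prop)))
        (se_and (se_val h' (by fun_prop)) (se_prim (by fun_prop))))))
  have r2 : REPred fun x : ℕ × ℕ × ℕ => A x.1.unpair.2 (x.2.1, 0, []) :=
    re_comp' rA (fun x : ℕ × ℕ × ℕ => (x.1.unpair.2, x.2.1, 0, [])) (by fun_prop)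
  have e2 : SE (chi Zw) fun x : ℕ × ℕ × ℕ => S2 x.1 x.2.1 x.2.2 :=
    se_or (se_and (se_re r2) (se_prim (by fun_prop))) (se_and (se_not r2) (se_prim (by fun_prop)))
  obtain ⟨σ, s0, s1, s2⟩ := se_rec (g := chi Zw) (S := fun s σ τ => ∃ p : List ℕ × ℕ,
    (τ == σ ++ p.1 ++ [p.2]) = true ∧ S1 s σ p.1 ∧ S2 s (σ ++ p.1).length p.2)
    (se_ex (se_and (se_prim (by fun_prop)) (se_and
      (se_comp e1 (fun x : (ℕ × List ℕ × List ℕ) × List ℕ × ℕ => (x.1.1, x.1.2.1, x.2.1))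
        (by fun_prop))
      (se_comp e2 (fun x : (ℕ × List ℕ × List ℕ) × List ℕ × ℕ =>
        (x.1.1, (x.1.2.1 ++ x.2.1).length, x.2.2)) (by fun_prop))))) [] fun s σ => by
    obtain ⟨ρ, a1, a2⟩ := u1 s σ
    obtain ⟨b, b1, b2⟩ := u2 s (σ ++ ρ).length
    refine ⟨_, ⟨(ρ, b), beq_self_eq_true _, a1, b1⟩, ?_⟩
    rintro τ ⟨⟨ρ', b'⟩, c1, c2, c3⟩
    obtain rfl := a2 _ c2
    rw [← b2 _ c3]
    exact beq_iff_eq.1 c1
  simp only [beq_iff_eq] at s1
  have p1 : ∀ m n, m ≤ n → σ m <+: σ n := fun m n h => by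
    induction n, h using Nat.le_induction with
    | base => exact List.prefix_rfl
    | succ n _ ih =>
      obtain ⟨p, e, -⟩ := s1 n
      exact ih.trans ⟨p.1 ++ [p.2], by rw [e, List.append_assoc]⟩
  have p2 : ∀ n, n ≤ (σ n).length ∧ ∀ b ∈ σ n, b ≤ 1 := fun n => by
    induction n with
    | zero => simp [s0]
    | succ n ih =>
      obtain ⟨p, e, a, b⟩ := s1 n
      refine ⟨by simp [e]; omega, fun c hc => ?_⟩
      simp only [e, List.mem_append, List.mem_singleton] at hc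
      rcases hc with (hc | hc) | rfl
      · exact ih.2 c hc
      · rcases a with ⟨-, a⟩ | ⟨w, a, a'⟩
        · simp [beq_iff_eq.1 a] at hc
        · have := (q2 _ _ a).1
          simp only [Bool.and_eq_true, List.all_eq_true, Nat.ble_eq,
            List.mem_append] at this
          rcases a' with ⟨-, a'⟩ | ⟨-, a'⟩ <;> rw [beq_iff_eq.1 a'] at hc
          exacts [this.2 c (Or.inl hc), this.2 c (Or.inr hc)]
      · rcases b with ⟨-, b⟩ | ⟨-, b⟩ <;> simp [beq_iff_eq.1 b]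
  obtain ⟨f, hf⟩ : ∃ f : ℕ → ℕ, ∀ x, f x = (σ (x + 1)).getD x 0 := ⟨_, fun _ => rfl⟩
  have p3 : ∀ n τ, τ <+: σ n → τ = pre f τ.length := fun n τ h => by
    refine List.ext_getElem (by simp) fun i h1 _ => ?_
    have a := (p2 (i + 1)).1
    simp only [pre, List.getElem_map, List.getElem_range, hf]
    rw [List.getD_eq_getElem _ _ (by omega), (h.trans (p1 _ _ (le_max_left n (i + 1)))).getElem,
      (p1 _ _ (le_max_right n (i + 1))).getElem]
  have p4 : ∀ x, f x ≤ 1 := fun x => by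
    have a := p2 (x + 1)
    rw [hf, List.getD_eq_getElem _ _ (by omega)]
    exact a.2 _ (List.getElem_mem _)
  have p5 : chi {x | f x = 1} = f := funext fun x => by
    have := p4 x
    simp only [chi, Set.mem_ofPred_eq]
    split_ifs <;> omega
  refine ⟨{x | f x = 1}, ?_, fun i hi => ?_⟩ <;> rw [p5] at *
  · refine tr_of_se (SE.of_eq (p := fun x : ℕ × ℕ => ∃ τ, σ (x.1 + 1) = τ ∧
      (τ.getD x.1 0 == x.2) = true) (se_ex (se_and (se_comp s2 (fun x : (ℕ × ℕ) × List ℕ =>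
        (x.1.1 + 1, x.2)) (by fun_prop)) (se_prim (by fun_prop)))) fun x => by simp [hf])
  obtain ⟨W, w1, w2, w3⟩ := se_of_tr hi.2
  obtain ⟨e, he⟩ := exists_index (re_comp' w1 (fun x : ℕ × ℕ × List ℕ => ((x.1, x.2.1), x.2.2))
    (by fun_prop))
  obtain ⟨⟨ρ, b⟩, e1, a, -⟩ := s1 (Nat.pair i e)
  have k : ∀ x v, A e (x, v, σ (Nat.pair i e) ++ ρ) → chi Zw (h i x) = v := fun x v a =>
    (w3 (x, v)).2 ⟨_, p3 _ _ ⟨_, e1.symm⟩ ▸ (he (x, v, _)).2 a⟩
  simp only [S1, Nat.unpair_pair, beq_iff_eq] at a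
  rcases a with ⟨a, -⟩ | ⟨w, a, ⟨c, rfl⟩ | ⟨c, rfl⟩⟩
  rotate_left
  · exact c (k _ _ (q2 _ _ a).2.1)
  · have := q2 _ _ a
    have b := this.1
    simp [← c, k _ _ this.2.2] at b
  have k1 : ∀ x, ∃ ρ, (ρ.all fun b => Nat.ble b 1) = true ∧
      A e (x, chi Zw (h i x), σ (Nat.pair i e) ++ ρ) := fun x => by
    obtain ⟨n, hn⟩ := (w3 (x, chi Zw (h i x))).1 rfl
    obtain ⟨ρ, hρ⟩ := p1 _ _ (le_max_left (Nat.pair i e) n)
    have b := p2 (max (Nat.pair i e) n)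
    refine ⟨ρ, ?_, (he (x, _, _)).1 ?_⟩
    · simp only [List.all_eq_true, Nat.ble_eq]
      exact fun c hc => b.2 c (hρ ▸ List.mem_append_right _ hc)
    · rw [hρ, p3 _ _ List.prefix_rfl]
      exact w2 _ _ _ (by omega) hn
  have k2 : Computable fun x => chi Zw (h i x) := comp_of_re ((re_ex (p := fun (x : ℕ × ℕ) ρ =>
    (ρ.all fun b => Nat.ble b 1) = true ∧ A e (x.1, x.2, σ (Nat.pair i e) ++ ρ))
    (re_and (re_prim (by fun_prop)) (re_comp' rA (fun x : (ℕ × ℕ) × List ℕ =>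
      (e, x.1.1, x.1.2, σ (Nat.pair i e) ++ x.2)) (by fun_prop)))).of_eq fun x => by
    refine ⟨fun ⟨ρ, b, c⟩ => ?_, fun b => b ▸ k1 x.1⟩
    obtain ⟨ρ', b', c'⟩ := k1 x.1
    by_contra ne
    obtain ⟨u, hu⟩ := d2 (x.1, (chi Zw (h i x.1), ρ'), (x.2, ρ))
    refine a (q4 _ u ?_)
    rw [hu]
    exact ⟨by simp only [List.all_append, b, b']; simpa using ne, c', c⟩)
  have k3 : Computable f :=
    RecursiveIn.partrec_of_oracle (fun _ h => Set.mem_singleton_iff.1 h ▸ k2.partrec) hi.1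
  obtain ⟨e', he'⟩ := exists_index (re_bool (f := fun x : ℕ × ℕ × List ℕ => f x.1 == 0)
    ((show Primrec fun n : ℕ => n == 0 by fun_prop).to_comp.comp (k3.comp Computable.fst)))
  obtain ⟨⟨ρ, b⟩, e1, -, c⟩ := s1 (Nat.pair 0 e')
  have k4 : f (σ (Nat.pair 0 e') ++ ρ).length = b := by
    have := p3 _ _ (List.prefix_rfl (l := σ (Nat.pair 0 e' + 1)))
    rw [e1, List.length_append, List.length_singleton, pre_succ] at this
    exact (List.singleton_injective (List.append_inj_right' this rfl)).symm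
  simp only [S2, Nat.unpair_pair, A, ← he', k4, beq_iff_eq] at c
  omega

theorem result : ∃ D : Set ℕ, TuringReducible (chi D : ℕ →. ℕ) (chi Zw : ℕ →. ℕ) ∧
    ∀ (U : Set ℕ) (F : ℕ → List ℕ → ℕ) (R : ℕ → List ℕ → Prop) (S : Set Fm),
      ComputablePred (· ∈ U) → Computable₂ F → ComputablePred (fun p : ℕ × List ℕ => R p.1 p.2) →
      ComputablePred (· ∈ Fm.enc '' S) →
      ¬ TuringEquivalent (chi D : ℕ →. ℕ)
        (chi (Fm.enc '' {φ ∈ S | φ.Sat U F R []}) : ℕ →. ℕ) := by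
  obtain ⟨D, h1, h2⟩ := avoid (fun e n => Nat.pair (n + 2) (pos e (9 * n + 8) [] []))
    (by unfold pos; fun_prop)
  refine ⟨D, h1, fun U F R S hU hF hR hS => ?_⟩
  obtain ⟨e, he⟩ := truth (F := F) hU.to_re ((re_bool (f := fun p : ℕ × List ℕ × ℕ =>
    F p.1 p.2.1 == p.2.2) ((show Primrec fun p : ℕ × ℕ => p.1 == p.2 by fun_prop).to_comp.comp
      ((hF.comp Computable.fst (Computable.fst.comp Computable.snd)).pair
        (Computable.snd.comp Computable.snd)))).of_eq fun p => by simp) hR.to_re hS.to_re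
  convert h2 e using 3
  funext n
  simp only [chi, Zw, Set.mem_ofPred_eq, Nat.unpair_pair, he]

end Pool.Agent.Results.MP_f36693_lc.MissingDegree
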